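import Pool.Agent.P.MP_7a8567_an.Alg.Bas

set_option autoImplicit false

/-! Kernels of evaluation at a pair; chain rule. -/

namespace Ivrii.Gl

open MvPolynomial

variable {k L : Type} [Field k] [Field L] [Algebra k L]

theorem ev_X0 (a : L × L) : ev (k := k) a (X 0) = a.1 := by simp [ev]

theorem ev_X1 (a : L × L) : ev (k := k) a (X 1) = a.2 := by simp [ev]

theorem ev_C (a : L × L) (c : k) : ev a (C c : R2 k) = algebraMap k L c := by simp [ev]

theorem der_ev (D : Derivation k L L) (a : L × L) (f : R2 k) :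
    D (ev a f) = ev a (pderiv 0 f) * D a.1 + ev a (pderiv 1 f) * D a.2 := by
  induction f using MvPolynomial.induction_on with
  | C c => simp
  | add p q hp hq => simp only [map_add, hp, hq]; ring
  | mul_X p i hp =>
    fin_cases i
    · simp only [Fin.zero_eta, map_mul, Derivation.leibniz, smul_eq_mul, map_add, hp, ev_X0,
        pderiv_X_self, pderiv_X_of_ne (show (0 : Fin 2) ≠ 1 by decide), map_one, map_zero]
      ring
    · simp only [Fin.mk_one, map_mul, Derivation.leibniz, smul_eq_mul, map_add, hp, ev_X1,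
        pderiv_X_self, pderiv_X_of_ne (show (1 : Fin 2) ≠ 0 by decide), map_one, map_zero]
      ring

theorem deg_pderiv {f : R2 k} {i : Fin 2} (h : pderiv i f ≠ 0) :
    (pderiv i f).totalDegree < f.totalDegree := by
  obtain ⟨m, hm, e⟩ := Finset.exists_mem_eq_sup (pderiv i f).support (support_nonempty.2 h)
    fun s => s.sum fun _ e => e
  have h1 : coeff (m + Finsupp.single i 1) f ≠ 0 := by
    intro h0
    rw [mem_support_iff, coeff_pderiv, h0, zero_mul] at hm
    exact hm rfl
  have h2 := le_totalDegree (mem_support_iff.2 h1)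
  rw [Finsupp.sum_add_index' (by simp) (by simp), Finsupp.sum_single_index rfl] at h2
  rw [totalDegree, e]
  omega

theorem eq_C_of_pderiv [CharZero k] {f : R2 k} (h : ∀ i, pderiv i f = 0) : f = C (coeff 0 f) := by
  ext m
  by_cases hm : m = 0
  · simp [hm]
  rw [coeff_C, if_neg (Ne.symm hm)]
  obtain ⟨i, hi⟩ : ∃ i, m i ≠ 0 := by
    by_contra hc
    push Not at hc
    exact hm (Finsupp.ext hc)
  have e : m = (m - Finsupp.single i 1) + Finsupp.single i 1 := by
    rw [tsub_add_cancel_of_le]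
    exact Finsupp.single_le_iff.2 (Nat.one_le_iff_ne_zero.2 hi)
  have h1 := coeff_pderiv (i := i) f (m - Finsupp.single i 1)
  rw [h i, coeff_zero, ← e] at h1
  exact (mul_eq_zero.1 h1.symm).resolve_right (Nat.cast_add_one_ne_zero _)

theorem exists_irr {a : L × L} (h : ¬ Gen k a) : ∃ Q : R2 k, Irreducible Q ∧ ev a Q = 0 := by
  have hne : RingHom.ker (ev (k := k) a) ≠ ⊥ := fun e =>
    h ((RingHom.injective_iff_ker_eq_bot (ev (k := k) a)).2 e)
  obtain ⟨Q, h1, h2⟩ := (RingHom.ker_isPrime (ev (k := k) a)).exists_mem_prime_of_ne_bot hne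
  exact ⟨Q, h2.irreducible, h1⟩

/-- A point outside `k²` of an irreducible curve is a generic point. -/
theorem dvd_of_ev [IsAlgClosed k] {a : L × L} {Q g : R2 k} (hQ : Irreducible Q) (h0 : ev a Q = 0)
    (ha : (∀ c : k, algebraMap k L c ≠ a.1) ∨ ∀ c : k, algebraMap k L c ≠ a.2)
    (hg : ev a g = 0) : Q ∣ g := by
  by_contra hn
  let P : Ideal (R2 k) := RingHom.ker (ev (k := k) a)
  have hP : P.IsPrime := RingHom.ker_isPrime _
  have hnm : ¬ P.IsMaximal := by
    intro hm
    obtain ⟨x, hx⟩ := isMaximal_iff_eq_vanishingIdeal_singleton.1 hm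
    have key : ∀ i, ev a (X i - C (x i) : R2 k) = 0 := fun i => by
      have : (X i - C (x i) : R2 k) ∈ P := by
        rw [hx, mem_vanishingIdeal_singleton_iff]; simp
      exact this
    rcases ha with ha | ha
    · have := key 0
      rw [map_sub, ev_X0, ev_C, sub_eq_zero] at this
      exact ha _ this.symm
    · have := key 1
      rw [map_sub, ev_X1, ev_C, sub_eq_zero] at this
      exact ha _ this.symm
  obtain ⟨m, hm, hPm⟩ := P.exists_le_maximal hP.ne_top
  have hQp : (Ideal.span {Q}).IsPrime := (Ideal.span_singleton_prime hQ.ne_zero).2 hQ.prime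
  let p0 : PrimeSpectrum (R2 k) := ⟨⊥, Ideal.isPrime_bot⟩
  let p1 : PrimeSpectrum (R2 k) := ⟨_, hQp⟩
  let p2 : PrimeSpectrum (R2 k) := ⟨P, hP⟩
  let p3 : PrimeSpectrum (R2 k) := ⟨m, hm.isPrime⟩
  have l01 : p0 < p1 := by
    change (⊥ : Ideal (R2 k)) < Ideal.span {Q}
    exact bot_lt_iff_ne_bot.2 (mt Ideal.span_singleton_eq_bot.1 hQ.ne_zero)
  have l12 : p1 < p2 := by
    refine lt_of_le_of_ne ((Ideal.span_singleton_le_iff_mem _).2 h0) fun e => hn ?_
    have e' : Ideal.span {Q} = P := congrArg PrimeSpectrum.asIdeal e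
    exact Ideal.mem_span_singleton.1 (e' ▸ hg)
  have l23 : p2 < p3 := by
    refine lt_of_le_of_ne hPm fun e => hnm ?_
    have e' : P = m := congrArg PrimeSpectrum.asIdeal e
    exact e' ▸ hm
  have hmono : StrictMono ![p0, p1, p2, p3] := by
    rw [Fin.strictMono_iff_lt_succ]
    intro i
    fin_cases i
    exacts [l01, l12, l23]
  have h3 := Order.LTSeries.length_le_krullDim (LTSeries.mk 3 ![p0, p1, p2, p3] hmono)
  change _ ≤ ringKrullDim (R2 k) at h3
  rw [MvPolynomial.ringKrullDim_of_isNoetherianRing, ringKrullDim_eq_zero_of_field] at h3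
  simp only [LTSeries.mk_length, Nat.card_eq_fintype_card, Fintype.card_fin, zero_add] at h3
  exact absurd (by exact_mod_cast h3 : 3 ≤ 2) (by norm_num)

/-- A generic point of an irreducible curve is smooth. -/
theorem grad_ne [IsAlgClosed k] [CharZero k] {a : L × L} {Q : R2 k} (hQ : Irreducible Q)
    (h0 : ev a Q = 0) (ha : (∀ c : k, algebraMap k L c ≠ a.1) ∨ ∀ c : k, algebraMap k L c ≠ a.2)
    (h1 : ev a (pderiv 0 Q) = 0) (h2 : ev a (pderiv 1 Q) = 0) : False := by
  have key : ∀ i, ev a (pderiv i Q) = 0 → pderiv i Q = 0 := fun i hi => by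
    by_contra hne
    exact absurd (totalDegree_le_of_dvd_of_isDomain (dvd_of_ev hQ h0 ha hi) hne)
      (not_le.2 (deg_pderiv hne))
  have hC := eq_C_of_pderiv (f := Q) fun i => by
    fin_cases i
    exacts [key 0 h1, key 1 h2]
  rw [hC, ev_C, map_eq_zero] at h0
  rw [h0, C_0] at hC
  exact hQ.ne_zero hC

theorem gen_of_br [IsAlgClosed k] [CharZero k] (D E : Derivation k L L) {l : L × L}
    (h : D l.2 * E l.1 - E l.2 * D l.1 ≠ 0) : Gen k l := by
  by_contra hn
  obtain ⟨Q, hQ, h0⟩ := exists_irr hn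
  have e1 := der_ev D l Q
  have e2 := der_ev E l Q
  rw [h0, map_zero] at e1 e2
  refine grad_ne hQ h0 (Or.inl fun c hc => h ?_) ?_ ?_
  · rw [← hc]; simp
  · refine (mul_eq_zero.1 ?_).resolve_right h
    linear_combination E l.2 * e1 - D l.2 * e2
  · refine (mul_eq_zero.1 ?_).resolve_right h
    linear_combination D l.1 * e2 - E l.1 * e1

/-- Conjugation of polynomials. -/
noncomputable def cj (τ : k →+* k) : R2 k →+* R2 k :=
  (rename (Equiv.swap (0 : Fin 2) 1)).toRingHom.comp (MvPolynomial.map τ)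

theorem cj_apply (τ : k →+* k) (f : R2 k) :
    cj τ f = rename (Equiv.swap (0 : Fin 2) 1) (MvPolynomial.map τ f) := rfl

theorem cj_cj {τ : k →+* k} (h : ∀ a, τ (τ a) = a) (f : R2 k) : cj τ (cj τ f) = f := by
  have : (cj τ).comp (cj τ) = RingHom.id _ := by
    ext a
    · simp [cj_apply, h]
    · simp [cj_apply]
  exact DFunLike.congr_fun this f

theorem ev_cj {τ : k →+* k} {σ : L →+* L} (hσ : ∀ c, σ (algebraMap k L c) = algebraMap k L (τ c))
    {a : L × L} (h1 : σ a.1 = a.2) (h2 : σ a.2 = a.1) (f : R2 k) :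
    ev a (cj τ f) = σ (ev a f) := by
  have : (ev (k := k) a).toRingHom.comp (cj τ) = σ.comp (ev (k := k) a).toRingHom := by
    apply MvPolynomial.ringHom_ext
    · intro c
      simp [cj_apply, hσ]
    · intro i
      fin_cases i <;> simp [cj_apply, ev_X0, ev_X1, h1, h2]
  exact DFunLike.congr_fun this f

theorem pderiv_cj (τ : k →+* k) (f : R2 k) : pderiv 1 (cj τ f) = cj τ (pderiv 0 f) := by
  have := pderiv_rename (Equiv.swap (0 : Fin 2) 1).injective 0 (MvPolynomial.map τ f)
  rw [Equiv.swap_apply_left, pderiv_map] at this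
  exact this

theorem realC_of_dvd {τ : k →+* k} (h : ∀ a, τ (τ a) = a) {Q : R2 k} (hQ : Q ≠ 0)
    (hd : Q ∣ cj τ Q) : RealC τ Q := by
  obtain ⟨g, hg⟩ := hd
  have e := cj_cj h Q
  rw [hg, map_mul, hg, mul_assoc] at e
  have hu : IsUnit g := IsUnit.of_mul_eq_one _ (mul_left_cancel₀ hQ (e.trans (mul_one Q).symm))
  obtain ⟨r, hr, rfl⟩ := isUnit_iff_eq_C_of_isReduced.1 hu
  exact ⟨r, hr.ne_zero, by rw [← cj_apply, hg, mul_comm]⟩

end Ivrii.Gl
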